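import Pool.Agent.K3h1.KR.Main

/-!
# `F(X)` can be a `k_R`-space although no `F_n(X)` is one (MP_547adb_gt, Q1)

`FTG X` is the free group on the set `X`, with the finest group topology making the inclusion
`gen : X → FTG X` of the generators continuous.

The space: let `I` be a well-ordered set of type `ω₁` and `J = P(I) ⊔ I`. The space `X` is the
subspace of the Cantor cube `{0,1}^J` consisting of the points with countable support and of the
points which are `1` on the block `I` and have support of size greater than `ℵ₁`. In a compact subset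
of `X` the two kinds of points form clopen sets, so `X = F_1(X)` (and every `F_n(X)`) is not a
`k_R`-space. In `F(X)` the two kinds are linked by compact sets of the form
`{y_α x_α⁻¹ : α < ω₁} ∪ {1}`, where `x_α` and `y_α` have a common limit outside `X`.
-/

set_option autoImplicit false

open Topology Set Pool.Agent.R816.FTG

namespace Pool.Agent.Results.MP_547adb_gt.LevelsNotKR

/-- A `k_R`-space: every real-valued function which is continuous on each compact subset is
continuous. -/
def KR (Y : Type) [TopologicalSpace Y] : Prop :=
  ∀ f : Y → ℝ, (∀ K : Set Y, IsCompact K → ContinuousOn f K) → Continuous f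

/-- The subspace `F_n(X)`: the products of at most `n` elements of `X ∪ X⁻¹`. -/
def level (X : Type) (n : ℕ) : Set (FTG X) :=
  {w | ∃ L : List (X × Bool), L.length ≤ n ∧
    w = (L.map fun p => if p.2 then gen p.1 else (gen p.1)⁻¹).prod}

/-- Sanity check: the topology of `F(X)` is the finest group topology with `gen` continuous. -/
theorem instTop_eq (X : Type) [TopologicalSpace X] : instTop X =
    sInf {t : TopologicalSpace (FTG X) |
      @IsTopologicalGroup (FTG X) t _ ∧ @Continuous X (FTG X) _ t gen} := rfl

/-- Sanity check: the universal property of the free topological group. -/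
theorem universal {X G : Type} [TopologicalSpace X] [Group G] [TopologicalSpace G]
    [IsTopologicalGroup G] (f : X → G) (hf : Continuous f) :
    ∃! φ : FTG X →* G, Continuous φ ∧ ∀ x, φ (gen x) = f x := by
  refine ⟨Pool.Agent.R816.FTG.lift f, ⟨lift_continuous hf, fun x => lift_gen f x⟩, ?_⟩
  rintro ψ ⟨_, hψ⟩
  exact hom_ext fun x => by rw [hψ, lift_gen]

/-- Sanity check: the space is a subspace of its free topological group. -/
theorem isEmbedding_gen :
    IsEmbedding (gen : Pool.Agent.K3h1.KR.X → FTG Pool.Agent.K3h1.KR.X) := by
  let b : Bool → Multiplicative ℤ := fun t => Multiplicative.ofAdd (if t then 1 else 0)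
  let β : Pool.Agent.K3h1.KR.X → (Pool.Agent.K3h1.KR.J → Multiplicative ℤ) :=
    fun x A => b (x.1 A)
  have hβ : Continuous β := continuous_pi fun A =>
    (continuous_of_discreteTopology (f := b)).comp
      ((continuous_apply A).comp continuous_subtype_val)
  let c : Multiplicative ℤ → Bool := fun z => decide (z ≠ 1)
  let d : (Pool.Agent.K3h1.KR.J → Multiplicative ℤ) → (Pool.Agent.K3h1.KR.J → Bool) :=
    fun z A => c (z A)
  have hd : Continuous d := continuous_pi fun A =>
    (continuous_of_discreteTopology (f := c)).comp (continuous_apply A)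
  have h : d ∘ β = Subtype.val := by
    funext x A
    cases hx : x.1 A <;> simp [d, β, c, b, hx]
  have hβe : IsEmbedding β := IsEmbedding.of_comp hβ hd (h ▸ IsEmbedding.subtypeVal)
  have h2 : (Pool.Agent.R816.FTG.lift β) ∘ gen = β := funext fun x => lift_gen β x
  exact IsEmbedding.of_comp (continuous_gen _) (lift_continuous hβ) (by rw [h2]; exact hβe)

theorem level_eq (n : ℕ) :
    level Pool.Agent.K3h1.KR.X n = Pool.Agent.K3h1.KR.Fn n := by
  have h : ∀ L : List (Pool.Agent.K3h1.KR.X × Bool),
      (L.map fun p => if p.2 then gen p.1 else (gen p.1)⁻¹).prod =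
        Pool.Agent.K3h1.KR.mkw L := by
    intro L
    induction L with
    | nil => rfl
    | cons p L ih =>
      obtain ⟨x, b⟩ := p
      rw [List.map_cons, List.prod_cons, ih, Pool.Agent.K3h1.KR.mkw_cons]
      cases b <;> rfl
  unfold level Pool.Agent.K3h1.KR.Fn
  simp only [h]

/-- There is a Tychonoff space `X` for which the free topological group `F(X)` is a `k_R`-space,
while for every `n ≥ 1` the subspace `F_n(X)` is not a `k_R`-space. -/
theorem result : ∃ (X : Type) (_ : TopologicalSpace X),
    T35Space X ∧ IsEmbedding (gen : X → FTG X) ∧ T35Space (FTG X) ∧ KR (FTG X) ∧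
    ∀ n : ℕ, 1 ≤ n → ¬ KR (level X n) := by
  refine ⟨Pool.Agent.K3h1.KR.X, inferInstance, inferInstance, isEmbedding_gen,
    Pool.Agent.K3h1.KR.t35_of_t2 _, Pool.Agent.K3h1.KR.isKR_FTG, ?_⟩
  intro n hn
  rw [level_eq]
  exact Pool.Agent.K3h1.KR.not_isKR_Fn hn

end Pool.Agent.Results.MP_547adb_gt.LevelsNotKR
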